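import Pool.Agent.Lib.MP_86abfd_al.Final
import Pool.Agent.Lib.MP_86abfd_al.Depth
import Pool.Agent.Lib.MP_86abfd_al.Height
import Pool.Agent.Lib.MP_86abfd_al.Orbit

/-!
# MP_86abfd_al, Q1: the Fitting height is bounded in terms of the average number of zeros

There is a constant `c` such that `h(G) ≤ c + 10 * anz(G)` for every finite solvable group `G`.
-/

namespace Pool.Agent.Results.MP_86abfd_al.HeightBound

/-- `Irr(G)`: the set of complex irreducible characters of `G`, as functions `G → ℂ`. -/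
def Irr (G : Type) [Group G] : Set (G → ℂ) :=
  {χ | ∃ (n : ℕ) (ρ : Representation ℂ G (Fin n → ℂ)), ρ.IsIrreducible ∧ ρ.character = χ}

/-- `anz(G)`: the number of pairs `(χ, K)`, `χ ∈ Irr(G)`, `K` a conjugacy class of `G`, such that
`χ` vanishes on `K`, divided by the number `k(G)` of conjugacy classes of `G`. -/
noncomputable def anz (G : Type) [Group G] : ℝ :=
  ({p : (G → ℂ) × ConjClasses G | p.1 ∈ Irr G ∧ ∀ g ∈ p.2.carrier, p.1 g = 0}.ncard : ℝ) /
    (Nat.card (ConjClasses G) : ℝ)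

/-- `G` has a chain `1 = N 0 ≤ N 1 ≤ ... ≤ N n = G` of normal subgroups of `G` such that every
factor `N (i + 1) / N i` (the image of `N (i + 1)` in `G / N i`) is nilpotent. -/
def HasNilpotentSeries (G : Type) [Group G] (n : ℕ) : Prop :=
  ∃ N : ℕ → Subgroup G, ∃ _ : ∀ i, (N i).Normal, N 0 = ⊥ ∧ N n = ⊤ ∧
    ∀ i < n, N i ≤ N (i + 1) ∧
      Group.IsNilpotent ((N (i + 1)).map (QuotientGroup.mk' (N i)))

/-- The Fitting height `h(G)`: the length of the shortest chain as in `HasNilpotentSeries`. -/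
noncomputable def fittingHeight (G : Type) [Group G] : ℕ :=
  sInf {n | HasNilpotentSeries G n}

/-- There is a constant `c` such that every finite solvable group `G` satisfies
`h(G) ≤ c + 10 * anz(G)` (and the shortest chain defining `h(G)` exists). -/
theorem result : ∃ c : ℝ, ∀ (G : Type) [Group G] [Finite G] [Group.IsSolvable G],
    HasNilpotentSeries G (fittingHeight G) ∧ (fittingHeight G : ℝ) ≤ c + 10 * anz G := by
  obtain ⟨c, hc⟩ := FH.final_of (FH.mem_Rr_of_zer_of FH.large_orbit)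
  refine ⟨c, fun G _ _ _ => ?_⟩
  obtain ⟨n, hn, hle⟩ := hc G
  have hser : HasNilpotentSeries G n := by
    have hnorm : ∀ i, (FH.Rr (⊥ : Subgroup G) i).Normal := FH.Rr_normal _
    refine ⟨fun i => FH.Rr (⊥ : Subgroup G) i, hnorm, rfl, hn, fun i _ => ⟨FH.Rr_le_succ _ i, ?_⟩⟩
    exact FH.isNilpotent_of_relNil _ _ (FH.fitOver_relNil _)
  refine ⟨Nat.sInf_mem (s := {n | HasNilpotentSeries G n}) ⟨n, hser⟩, ?_⟩
  have h1 : fittingHeight G ≤ n := Nat.sInf_le hser
  have h2 : (fittingHeight G : ℝ) ≤ n := by exact_mod_cast h1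
  exact h2.trans hle

end Pool.Agent.Results.MP_86abfd_al.HeightBound
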